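import Pool.Agent.Q266.RP.Stm3

/-! JOB SCAL of project RP (helper266), second round (MP_6bdd40_al). -/

set_option autoImplicit false

namespace Pool.Agent.Q160.RPB

open Pool.Agent.Q266.RP Module

/-- A cyclic group has only one subgroup of order `p`. -/
theorem cyc_mem {G : Type} [Group G] [Finite G] (p : ℕ) [hp : Fact p.Prime] (x u t : G)
    (hu : u ∈ Subgroup.zpowers x) (ht : t ∈ Subgroup.zpowers x) (hup : u ^ p = 1)
    (hto : orderOf t = p) : u ∈ Subgroup.zpowers t := by
  classical
  haveI : Fintype (Subgroup.zpowers x) := Fintype.ofFinite _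
  have h1 := IsCyclic.card_pow_eq_one_le (α := Subgroup.zpowers x) (n := p) hp.out.pos
  set t' : Subgroup.zpowers x := ⟨t, ht⟩ with ht'
  have hto' : orderOf t' = p := by rw [ht', Subgroup.orderOf_mk, hto]
  set T : Finset (Subgroup.zpowers x) := (Finset.range p).image (fun i => t' ^ i) with hT
  have hTc : T.card = p := by
    rw [hT, Finset.card_image_of_injOn, Finset.card_range]
    intro i hi j hj hij
    have hi' : i < orderOf t' := by rw [hto']; simpa using hi
    have hj' : j < orderOf t' := by rw [hto']; simpa using hj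
    exact pow_injOn_Iio_orderOf hi' hj' hij
  have hsub : T ⊆ Finset.univ.filter (fun a : Subgroup.zpowers x => a ^ p = 1) := by
    intro a ha
    rw [hT, Finset.mem_image] at ha
    obtain ⟨i, _, rfl⟩ := ha
    rw [Finset.mem_filter]
    refine ⟨Finset.mem_univ _, ?_⟩
    rw [← pow_mul, mul_comm, pow_mul]
    have : t' ^ p = 1 := by rw [← hto', pow_orderOf_eq_one]
    rw [this, one_pow]
  have heq : T = Finset.univ.filter (fun a : Subgroup.zpowers x => a ^ p = 1) :=
    Finset.eq_of_subset_of_card_le hsub (by rw [hTc]; exact h1)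
  have hu' : (⟨u, hu⟩ : Subgroup.zpowers x) ∈ T := by
    rw [heq, Finset.mem_filter]
    refine ⟨Finset.mem_univ _, Subtype.ext ?_⟩
    simpa using hup
  rw [hT, Finset.mem_image] at hu'
  obtain ⟨i, _, hi⟩ := hu'
  have h2 : t ^ i = u := by
    have := congrArg (Subtype.val : Subgroup.zpowers x → G) hi
    simpa [ht'] using this
  rw [← h2]
  exact Subgroup.pow_mem _ (Subgroup.mem_zpowers t) i

theorem scal : S_ODDPAIR → S_STEPB → S_SCHUR → S_DESC → S_ORD → S_SCAL := by
  intro hOdd hStep hSchur hDesc hOrd
  have key : ∀ n : ℕ, ∀ (p : ℕ) [Fact p.Prime], p ≠ 2 → ∀ (P V : Type) [Group P] [Finite P]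
      [AddCommGroup V] [Module ℂ V] [FiniteDimensional ℂ V] (ρ : Representation ℂ P V),
      Nat.card P = n → IsPGroup p P → Irr ρ →
      ∀ x : P, LinearMap.trace ℂ V (ρ x) ≠ 0 →
      (∃ (k : ℕ) (c : ℂ), c ≠ 1 ∧ ∀ v, ρ (x ^ k) v = c • v) →
      orderOf x * (finrank ℂ V) ^ 2 ∣ Nat.card P := by
    intro n
    induction n using Nat.strong_induction_on with
    | _ n ih =>
    intro p hp hp2 P V _ _ _ _ _ ρ hn hP hIrr x hx hsc
    obtain ⟨k, c, hc1, hkc⟩ := hsc
    by_cases hker : ∀ g, ρ g = 1 → g = 1
    · have hcen : CenSmall p P := hSchur.2.1 p P V ρ hIrr hker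
      by_cases hcomm : ∀ a b : P, a * b = b * a
      · have hd := hSchur.2.2 P V ρ hIrr hcomm
        rw [hd]
        simpa using orderOf_dvd_natCard x
      · obtain ⟨e, z, hez⟩ := hOdd p hp2 P hP hcen hcomm
        have hep : e ^ p = 1 := hez.1
        have hec : e ∉ Subgroup.center P := hez.2.1
        have hzc : z ∈ Subgroup.center P := hez.2.2.1
        have hzo : orderOf z = p := hez.2.2.2.1
        obtain ⟨ω, hω⟩ := hSchur.1 P V ρ hIrr z hzc
        have hω1 : ω ≠ 1 := by
          intro h
          have h1 : z = 1 := hker z (by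
            ext v
            rw [hω, h, one_smul]
            rfl)
          rw [h1, orderOf_one] at hzo
          exact hp.out.one_lt.ne hzo
        obtain ⟨hxC, m, hu, hN, W, σ, hσ, hfr, hres, htr, hcd⟩ :=
          hStep p P V ρ hIrr e z hez ω hω hω1 x hx
        set C : Subgroup P := Subgroup.centralizer ({e} : Set P) with hC
        have hQP : IsPGroup p (C ⧸ Subgroup.zpowers (⟨e * z ^ m, hu⟩ : C)) :=
          (hP.to_subgroup C).to_quotient _
        have hpos : 0 < Nat.card (C ⧸ Subgroup.zpowers (⟨e * z ^ m, hu⟩ : C)) := Nat.card_pos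
        have hp2' : 1 < p ^ 2 := Nat.one_lt_pow (by norm_num) hp.out.one_lt
        have hlt : Nat.card (C ⧸ Subgroup.zpowers (⟨e * z ^ m, hu⟩ : C)) < n := by
          rw [← hn, hcd]
          nlinarith
        have hscal : ∃ (k : ℕ) (c : ℂ), c ≠ 1 ∧ ∀ w,
            σ ((QuotientGroup.mk ⟨x, hxC⟩ :
              C ⧸ Subgroup.zpowers (⟨e * z ^ m, hu⟩ : C)) ^ k) w = c • w := by
          refine ⟨k, c, hc1, fun w => ?_⟩
          have h1 : ((QuotientGroup.mk ⟨x, hxC⟩ :
              C ⧸ Subgroup.zpowers (⟨e * z ^ m, hu⟩ : C)) ^ k) =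
              QuotientGroup.mk ((⟨x, hxC⟩ : C) ^ k) := rfl
          apply Subtype.ext
          rw [h1, hres]
          rw [Subgroup.coe_pow]
          rw [hkc]
          rfl
        have hih := ih _ hlt p hp2 (C ⧸ Subgroup.zpowers (⟨e * z ^ m, hu⟩ : C)) W σ rfl hQP hσ
          (QuotientGroup.mk ⟨x, hxC⟩) htr hscal
        by_cases hbot : Subgroup.zpowers x ⊓ Subgroup.zpowers (e * z ^ m) = ⊥
        · have hbot' : Subgroup.zpowers (⟨x, hxC⟩ : C) ⊓
              Subgroup.zpowers (⟨e * z ^ m, hu⟩ : C) = ⊥ := by
            rw [eq_bot_iff]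
            intro y hy
            obtain ⟨hy1, hy2⟩ := Subgroup.mem_inf.1 hy
            obtain ⟨i, hi⟩ := Subgroup.mem_zpowers_iff.1 hy1
            obtain ⟨j, hj⟩ := Subgroup.mem_zpowers_iff.1 hy2
            have hy3 : (y : P) ∈ Subgroup.zpowers x ⊓ Subgroup.zpowers (e * z ^ m) := by
              refine Subgroup.mem_inf.2 ⟨Subgroup.mem_zpowers_iff.2 ⟨i, ?_⟩,
                Subgroup.mem_zpowers_iff.2 ⟨j, ?_⟩⟩
              · rw [← hi]
                simp
              · rw [← hj]
                simp
            rw [hbot, Subgroup.mem_bot] at hy3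
            rw [Subgroup.mem_bot]
            exact Subtype.ext hy3
          have ho := hOrd.2 C (Subgroup.zpowers (⟨e * z ^ m, hu⟩ : C)) ⟨x, hxC⟩ hbot'
          rw [ho, Subgroup.orderOf_mk] at hih
          rw [hfr, hcd]
          have h3 : orderOf x * (p * finrank ℂ W) ^ 2 =
              p ^ 2 * (orderOf x * finrank ℂ W ^ 2) := by ring
          rw [h3]
          exact Nat.mul_dvd_mul_left _ hih
        · exfalso
          -- `u = e z ^ m` has order `p` and is not central
          set u : P := e * z ^ m with hudef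
          have hzm : z ^ m ∈ Subgroup.center P := Subgroup.pow_mem _ hzc m
          have hcomz : Commute e (z ^ m) := (Subgroup.mem_center_iff.1 hzm e)
          have hup : u ^ p = 1 := by
            rw [hudef, hcomz.mul_pow, hep, one_mul, ← pow_mul, mul_comm, pow_mul, ← hzo,
              pow_orderOf_eq_one, one_pow]
          have huc : u ∉ Subgroup.center P := by
            intro h
            apply hec
            have h1 : e = u * (z ^ m)⁻¹ := by rw [hudef]; group
            rw [h1]
            exact Subgroup.mul_mem _ h (Subgroup.inv_mem _ hzm)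
          have hu1 : u ≠ 1 := fun h => huc (h ▸ Subgroup.one_mem _)
          have huo : orderOf u = p := orderOf_eq_prime hup hu1
          -- `u ∈ ⟨x⟩`
          have hux : u ∈ Subgroup.zpowers x := by
            rw [Subgroup.eq_bot_iff_forall] at hbot
            push Not at hbot
            obtain ⟨y, hy, hy1⟩ := hbot
            obtain ⟨hyx, hyu⟩ := Subgroup.mem_inf.1 hy
            have hyp : y ^ p = 1 := by
              obtain ⟨j, hj⟩ := Subgroup.mem_zpowers_iff.1 hyu
              rw [← hj, ← zpow_natCast, ← zpow_mul, mul_comm, zpow_mul, zpow_natCast, hup,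
                one_zpow]
            have hyo : orderOf y = p := orderOf_eq_prime hyp hy1
            have h1 : u ∈ Subgroup.zpowers y :=
              cyc_mem p u u y (Subgroup.mem_zpowers u) hyu hup hyo
            exact (Subgroup.zpowers_le.2 hyx) h1
          -- `y = x ^ k` is central and not trivial
          set y : P := x ^ k with hy
          have hyc : y ∈ Subgroup.center P := by
            rw [Subgroup.mem_center_iff]
            intro g
            have h1 : g * y * g⁻¹ * y⁻¹ = 1 := by
              apply hker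
              have h2 : ρ (g * y) = ρ (y * g) := by
                ext v
                rw [map_mul, map_mul]
                change ρ g (ρ y v) = ρ y (ρ g v)
                rw [hkc, hkc, map_smul]
              have h3 : g * y * g⁻¹ * y⁻¹ = (g * y) * (y * g)⁻¹ := by group
              rw [h3, map_mul, h2, ← map_mul, mul_inv_cancel, map_one]
            calc g * y = (g * y * g⁻¹ * y⁻¹) * (y * g) := by group
              _ = y * g := by rw [h1, one_mul]
          have hy1 : y ≠ 1 := by
            intro h
            obtain ⟨v, hv⟩ := @exists_ne V hIrr.1 0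
            have h2 := hkc v
            rw [h, map_one] at h2
            have h3 : (1 - c) • v = 0 := by
              rw [sub_smul, one_smul, ← h2]
              change v - v = 0
              rw [sub_self]
            rcases smul_eq_zero.1 h3 with h4 | h4
            · exact hc1 (sub_eq_zero.1 h4).symm
            · exact hv h4
          have hpy : p ∣ orderOf y := by
            obtain ⟨j, hj⟩ := hP y
            obtain ⟨i, _, hi⟩ := (Nat.dvd_prime_pow hp.out).1 (orderOf_dvd_of_pow_eq_one hj)
            rcases Nat.eq_zero_or_pos i with h0 | h0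
            · rw [h0, pow_zero] at hi
              exact absurd (orderOf_eq_one_iff.1 hi) hy1
            · rw [hi]
              exact dvd_pow_self p h0.ne'
          set t : P := y ^ (orderOf y / p) with ht
          have hto : orderOf t = p := orderOf_pow_orderOf_div (orderOf_pos y).ne' hpy
          have htc : t ∈ Subgroup.center P := Subgroup.pow_mem _ hyc _
          have htx : t ∈ Subgroup.zpowers x :=
            Subgroup.pow_mem _ (Subgroup.pow_mem _ (Subgroup.mem_zpowers x) _) _
          have hut : u ∈ Subgroup.zpowers t := cyc_mem p x u t hux htx hup hto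
          exact huc ((Subgroup.zpowers_le.2 htc) hut)
    · push Not at hker
      obtain ⟨g, hg1, hg2⟩ := hker
      obtain ⟨σ, hσ, hσ2⟩ := hDesc.2 P V ρ (MonoidHom.ker ρ) hIrr (fun n hn => hn)
      have hQP : IsPGroup p (P ⧸ MonoidHom.ker ρ) := hP.to_quotient _
      have hcd : Nat.card P = Nat.card (P ⧸ MonoidHom.ker ρ) * Nat.card (MonoidHom.ker ρ) :=
        Subgroup.card_eq_card_quotient_mul_card_subgroup _
      have hpos : 0 < Nat.card (P ⧸ MonoidHom.ker ρ) := Nat.card_pos
      have hk : 1 < Nat.card (MonoidHom.ker ρ) := by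
        rw [Finite.one_lt_card_iff_nontrivial]
        exact ⟨⟨⟨g, hg1⟩, 1, fun h => hg2 (congrArg Subtype.val h)⟩⟩
      have hlt : Nat.card (P ⧸ MonoidHom.ker ρ) < n := by
        rw [← hn, hcd]
        nlinarith
      have hscal : ∃ (k : ℕ) (c : ℂ), c ≠ 1 ∧ ∀ v,
          σ ((QuotientGroup.mk x : P ⧸ MonoidHom.ker ρ) ^ k) v = c • v := by
        refine ⟨k, c, hc1, fun v => ?_⟩
        have h1 : ((QuotientGroup.mk x : P ⧸ MonoidHom.ker ρ) ^ k) =
            QuotientGroup.mk (x ^ k) := rfl
        rw [h1, hσ2, hkc]
      have hih := ih _ hlt p hp2 (P ⧸ MonoidHom.ker ρ) V σ rfl hQP hσ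
        (QuotientGroup.mk x) (by rw [hσ2]; exact hx) hscal
      have ho := hOrd.1 P (MonoidHom.ker ρ) x
      rw [hcd]
      refine dvd_trans (Nat.mul_dvd_mul_right ho _) ?_
      have h3 : orderOf (QuotientGroup.mk x : P ⧸ MonoidHom.ker ρ) *
          Nat.card (MonoidHom.ker ρ) * finrank ℂ V ^ 2 =
          orderOf (QuotientGroup.mk x : P ⧸ MonoidHom.ker ρ) * finrank ℂ V ^ 2 *
          Nat.card (MonoidHom.ker ρ) := by ring
      rw [h3]
      exact Nat.mul_dvd_mul_right hih _
  intro p hp hp2 P V _ _ _ _ _ ρ hP hIrr x hx hsc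
  exact key _ p hp2 P V ρ rfl hP hIrr x hx hsc

end Pool.Agent.Q160.RPB
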